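import Mathlib
import Pool.Agent.V1128.Pile.Top

set_option autoImplicit false

/-!
In a projective pile `(G, T)` with `G` finitely generated every point stabilizer `G_t` is a retract of
`G`.

Actions are written on the left; `t^g = g⁻¹ • t` gives the right actions of the problem file.
`PMor` is a morphism of piles, `RigidEpi` a rigid epimorphism of finite piles and `Projective` says
that every finite rigid embedding problem has a solution.
-/

namespace Pool.Agent.Results.MP_77349f_al.StabilizersAreRetracts

open Pool.Agent.V1128.Pile

theorem result :
    ∀ (G T : Type) [Group G] [TopologicalSpace G] [IsTopologicalGroup G] [CompactSpace G] [T2Space G]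
      [TotallyDisconnectedSpace G] [TopologicalSpace T] [CompactSpace T] [T2Space T]
      [TotallyDisconnectedSpace T] [MulAction G T] [ContinuousSMul G T],
      Projective G T → (∃ S : Finset G, (Subgroup.closure (S : Set G)).topologicalClosure = ⊤) →
      ∀ t : T, ∃ r : G →* MulAction.stabilizer G t, Continuous r ∧
        ∀ h : MulAction.stabilizer G t, r h = h := by
  intro G T _ _ _ _ _ _ _ _ _ _ _ _ hP hS t
  obtain ⟨S, hS⟩ := hS
  exact main hP S hS t

end Pool.Agent.Results.MP_77349f_al.StabilizersAreRetracts
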